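import Pool.Agent.X261.RO.Fam

/-!
Dedekind domains whose class group has no elements of order `p` and whose units are constants.
-/

set_option autoImplicit false
set_option linter.all false

open Polynomial IsDedekindDomain WithZero
open scoped nonZeroDivisors Classical

namespace Pool.Agent.X261.BC

open Pool.Agent.Y160.SE (IsPw)
open Pool.Agent.Y160.T7 (PropT)

section root

variable {R : Type} [CommRing R] [IsDedekindDomain R]

/-- An ideal whose exponents are divisible by `p` is a `p`-th power. -/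
theorem exists_root {p : ℕ} (hp : 0 < p) {a : R} (ha : a ≠ 0)
    (h : ∀ v : HeightOneSpectrum R, IsPw p (v.intValuation a)) :
    ∃ I : Ideal R, I ≠ 0 ∧ I ^ p = Ideal.span {a} := by
  have hI0 : Ideal.span {a} ≠ (0 : Ideal R) := fun h0 => ha (Ideal.span_singleton_eq_bot.1 h0)
  have hcnt : ∀ v : HeightOneSpectrum R, p ∣ (Associates.mk v.asIdeal).count
      (Associates.mk (Ideal.span {a} : Ideal R)).factors := by
    intro v
    obtain ⟨δ, hδ⟩ := h v
    rw [HeightOneSpectrum.intValuation_if_neg v ha] at hδ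
    have hδ0 : δ ≠ 0 := by
      rintro rfl
      rw [zero_pow hp.ne'] at hδ
      exact exp_ne_zero hδ
    obtain ⟨d, rfl⟩ : ∃ d : ℤ, δ = exp d := ⟨δ.log, (exp_log hδ0).symm⟩
    rw [← exp_nsmul, exp_inj, nsmul_eq_mul] at hδ
    have h1 : (p : ℤ) ∣ ((Associates.mk v.asIdeal).count
      (Associates.mk (Ideal.span {a} : Ideal R)).factors : ℤ) := ⟨-d, by linarith⟩
    exact_mod_cast h1
  choose e he using hcnt
  have hf : Function.HasFiniteMulSupport fun v : HeightOneSpectrum R => v.asIdeal ^ e v := by
    refine Set.Finite.subset (Ideal.hasFiniteMulSupport hI0) ?_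
    intro v hv h0
    apply hv
    have h0' : v.asIdeal ^ (Associates.mk v.asIdeal).count
      (Associates.mk (Ideal.span {a} : Ideal R)).factors = 1 := h0
    rw [he v, mul_comm, pow_mul] at h0'
    exact (pow_eq_one_iff.1 h0').resolve_right hp.ne'
  have hpow : (∏ᶠ v : HeightOneSpectrum R, v.asIdeal ^ e v) ^ p = Ideal.span {a} := by
    rw [finprod_pow hf, ← Ideal.finprod_heightOneSpectrum_factorization hI0]
    refine finprod_congr fun v => ?_
    show _ = v.asIdeal ^ _
    rw [he v, ← pow_mul, mul_comm]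
  refine ⟨_, fun h0 => ?_, hpow⟩
  rw [h0, zero_pow hp.ne'] at hpow
  exact hI0 hpow.symm

end root

section prop

variable {k R : Type} [Field k] [CommRing R] [IsDedekindDomain R] [Algebra k R]

theorem propT_of_class {p : ℕ} (hp : 0 < p) (hcl : ∀ c : ClassGroup R, c ^ p = 1 → c = 1)
    (hu : ∀ u : Rˣ, ∃ c : k, (u : R) = algebraMap k R c) : PropT p k R := by
  intro L _ _ _ z hz hP
  have hinj := IsFractionRing.injective R L
  obtain ⟨a, b, hb, rfl⟩ := IsFractionRing.div_surjective (A := R) z
  have hb0 : b ≠ 0 := nonZeroDivisors.ne_zero hb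
  have ha0 : a ≠ 0 := by
    rintro rfl
    rw [map_zero, zero_div] at hz
    exact hz rfl
  have hbL : algebraMap R L b ≠ 0 := fun h => hb0 (hinj (by rw [h, map_zero]))
  have hA0 : a * b ^ (p - 1) ≠ 0 := mul_ne_zero ha0 (pow_ne_zero _ hb0)
  obtain ⟨I, hI0, hI⟩ := exists_root hp hA0 (fun v => by
      have h := hP v
      rw [map_div₀, HeightOneSpectrum.valuation_of_algebraMap,
        HeightOneSpectrum.valuation_of_algebraMap] at h
      have hvb : v.intValuation b ≠ 0 := v.intValuation_ne_zero b hb0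
      have e : v.intValuation (a * b ^ (p - 1)) =
          (v.intValuation a / v.intValuation b) * (v.intValuation b) ^ p := by
        rw [map_mul, map_pow]
        have : (v.intValuation b) ^ p = v.intValuation b * (v.intValuation b) ^ (p - 1) := by
          rw [← pow_succ']
          congr 1
          omega
        rw [this, ← mul_assoc, div_mul_cancel₀ _ hvb]
      rw [e]
      exact h.mul (IsPw.self _))
  have hIm : I ∈ (Ideal R)⁰ := mem_nonZeroDivisors_of_ne_zero hI0
  have h1 : ClassGroup.mk0 ⟨I, hIm⟩ = 1 := by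
    apply hcl
    rw [← map_pow]
    refine (ClassGroup.mk0_eq_one_iff (pow_mem hIm p)).2 ?_
    rw [hI]
    exact ⟨⟨_, rfl⟩⟩
  obtain ⟨⟨w, hw⟩⟩ := (ClassGroup.mk0_eq_one_iff hIm).1 h1
  rw [Ideal.submodule_span_eq] at hw
  rw [hw, Ideal.span_singleton_pow, Ideal.span_singleton_eq_span_singleton] at hI
  obtain ⟨u, hu'⟩ := hI
  obtain ⟨c, hc⟩ := hu u
  have hc0 : c ≠ 0 := by
    rintro rfl
    rw [map_zero] at hc
    exact u.ne_zero hc
  have hw0 : w ≠ 0 := by
    rintro rfl
    rw [zero_pow hp.ne', zero_mul] at hu'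
    exact hA0 hu'.symm
  have hwL : algebraMap R L w ≠ 0 := fun h => hw0 (hinj (by rw [h, map_zero]))
  refine ⟨c, algebraMap R L w / algebraMap R L b, hc0, div_ne_zero hwL hbL, ?_⟩
  have e2 : algebraMap R L a * algebraMap R L b ^ (p - 1) =
      algebraMap R L (algebraMap k R c) * algebraMap R L w ^ p := by
    rw [← map_pow, ← map_mul, ← hu', hc, map_mul, map_pow, mul_comm]
  have e3 : algebraMap R L b ^ p = algebraMap R L b ^ (p - 1) * algebraMap R L b := by
    rw [← pow_succ]
    congr 1
    omega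
  rw [div_pow, ← mul_div_assoc, ← e2, e3, div_eq_div_iff hbL (mul_ne_zero (pow_ne_zero _ hbL) hbL)]
  ring

end prop

end Pool.Agent.X261.BC
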