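import Pool.Agent.X261.BC.Cls

/-!
The class group of the coordinate ring of an elliptic curve.
-/

set_option autoImplicit false
set_option linter.all false

open Polynomial IsDedekindDomain WithZero
open scoped nonZeroDivisors Classical

namespace Pool.Agent.X261.BC

open WeierstrassCurve.Affine WeierstrassCurve.Affine.CoordinateRing

section units

variable {k : Type} [Field k] {W : WeierstrassCurve.Affine k}

theorem unit_const (u : W.CoordinateRingˣ) :
    ∃ c : k, (u : W.CoordinateRing) = algebraMap k W.CoordinateRing c := by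
  obtain ⟨p, q, h⟩ := exists_smul_basis_eq (u : W.CoordinateRing)
  have h1 : IsUnit (Algebra.norm k[X] (u : W.CoordinateRing)) := u.isUnit.map _
  have h2 : (Algebra.norm k[X] (u : W.CoordinateRing)).degree = 0 := degree_eq_zero_of_isUnit h1
  rw [← h, degree_norm_smul_basis] at h2
  have hq : q = 0 := by
    by_contra hq
    have h3 : 2 • q.degree + 3 ≤ 0 := by
      rw [← h2]
      exact le_max_right _ _
    rw [degree_eq_natDegree hq] at h3
    have h4 : ((2 * q.natDegree + 3 : ℕ) : WithBot ℕ) ≤ ((0 : ℕ) : WithBot ℕ) := by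
      push_cast
      rw [two_nsmul] at h3
      rw [two_mul]
      exact h3
    have : 2 * q.natDegree + 3 ≤ 0 := Nat.cast_le.1 h4
    omega
  subst hq
  have hp : p.degree ≤ 0 := by
    by_cases hp0 : p = 0
    · rw [hp0, degree_zero]
      exact bot_le
    · have h3 : 2 • p.degree ≤ 0 := by
        rw [← h2]
        exact le_max_left _ _
      rw [degree_eq_natDegree hp0] at h3 ⊢
      have h4 : ((2 * p.natDegree : ℕ) : WithBot ℕ) ≤ ((0 : ℕ) : WithBot ℕ) := by
        push_cast
        rw [two_nsmul] at h3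
        rw [two_mul]
        exact h3
      have h5 : 2 * p.natDegree ≤ 0 := Nat.cast_le.1 h4
      exact_mod_cast (by omega : p.natDegree ≤ 0)
  refine ⟨p.coeff 0, ?_⟩
  rw [← h, zero_smul, add_zero, eq_C_of_degree_le_zero hp, coeff_C_zero,
    IsScalarTower.algebraMap_apply k k[X] W.CoordinateRing, Algebra.algebraMap_eq_smul_one]
  rfl

end units

section codim

variable {k R : Type} [Field k] [CommRing R] [IsDedekindDomain R] [Algebra k R]

/-- If `I J = (a)` then the codimension of `(a)` is the sum of the codimensions. -/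
theorem codim_mul {I J : Ideal R} {a : R} (ha : a ≠ 0) (hIJ : I * J = Ideal.span {a})
    [FiniteDimensional k (R ⧸ Ideal.span {a})] :
    Module.finrank k (R ⧸ J) + Module.finrank k (R ⧸ I) =
      Module.finrank k (R ⧸ Ideal.span {a}) := by
  have hI0 : I ≠ 0 := by
    rintro rfl
    rw [zero_mul] at hIJ
    exact ha (Ideal.span_singleton_eq_bot.1 hIJ.symm)
  have ha0 : Ideal.span {a} ≠ (0 : Ideal R) := fun h0 => ha (Ideal.span_singleton_eq_bot.1 h0)
  have hle : Ideal.span {a} ≤ I := hIJ ▸ Ideal.mul_le_left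
  obtain ⟨b, hb⟩ := IsDedekindDomain.exists_sup_span_eq hle ha0
  set mk : R →ₗ[R] (R ⧸ Ideal.span {a}) := (Ideal.span {a}).mkQ with hmk
  let φ : R →ₗ[R] (R ⧸ Ideal.span {a}) := mk.comp (LinearMap.toSpanSingleton R R b)
  have hφ : ∀ r : R, φ r = mk (r * b) := fun r => rfl
  have hker : LinearMap.ker φ = J := by
    ext r
    rw [LinearMap.mem_ker, hφ, hmk, Submodule.mkQ_apply, Submodule.Quotient.mk_eq_zero]
    constructor
    · intro h
      have h1 : I * Ideal.span {r} ≤ I * J := by
        rw [hIJ]
        refine Ideal.mul_le.2 fun y hy s hs => ?_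
        obtain ⟨s', rfl⟩ := Ideal.mem_span_singleton'.1 hs
        rw [← hb] at hy
        obtain ⟨y1, hy1, y2, hy2, rfl⟩ := Submodule.mem_sup.1 hy
        obtain ⟨y3, rfl⟩ := Ideal.mem_span_singleton'.1 hy2
        have e : (y1 + y3 * b) * (s' * r) = s' * r * y1 + s' * y3 * (r * b) := by ring
        rw [e]
        exact add_mem (Ideal.mul_mem_left _ _ hy1) (Ideal.mul_mem_left _ _ h)
      have h2 : J ∣ Ideal.span {r} := by
        have h3 : I * J ∣ I * Ideal.span {r} := Ideal.dvd_iff_le.2 h1
        exact (mul_dvd_mul_iff_left hI0).1 h3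
      exact (Ideal.span_singleton_le_iff_mem _).1 (Ideal.dvd_iff_le.1 h2)
    · intro h
      rw [← hIJ, mul_comm r b]
      refine Ideal.mul_mem_mul ?_ h
      rw [← hb]
      exact Submodule.mem_sup_right (Ideal.mem_span_singleton_self b)
  let ψ : (R ⧸ Ideal.span {a}) →ₗ[R] (R ⧸ I) := Submodule.factor hle
  have hψ : ∀ r : R, ψ (mk r) = I.mkQ r := fun r => rfl
  have hkerψ : LinearMap.ker ψ = LinearMap.range φ := by
    ext x
    obtain ⟨r, rfl⟩ := Submodule.mkQ_surjective _ x
    constructor
    · intro h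
      have h1 : r ∈ I := by
        have h2 : I.mkQ r = 0 := h
        rwa [Submodule.mkQ_apply, Submodule.Quotient.mk_eq_zero] at h2
      rw [← hb] at h1
      obtain ⟨y1, hy1, y2, hy2, rfl⟩ := Submodule.mem_sup.1 h1
      obtain ⟨y3, rfl⟩ := Ideal.mem_span_singleton'.1 hy2
      refine ⟨y3, ?_⟩
      rw [hφ]
      show mk (y3 * b) = mk (y1 + y3 * b)
      rw [map_add]
      have : mk y1 = 0 := by
        rw [hmk, Submodule.mkQ_apply, Submodule.Quotient.mk_eq_zero]
        exact hy1
      rw [this, zero_add]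
    · rintro ⟨s, hs⟩
      rw [LinearMap.mem_ker, ← hs, hφ, hψ, Submodule.mkQ_apply, Submodule.Quotient.mk_eq_zero]
      refine Ideal.mul_mem_left _ _ ?_
      rw [← hb]
      exact Submodule.mem_sup_right (Ideal.mem_span_singleton_self b)
  have hsurj : Function.Surjective ψ := by
    intro x
    obtain ⟨r, rfl⟩ := Submodule.mkQ_surjective _ x
    exact ⟨mk r, rfl⟩
  have h1 := LinearMap.finrank_range_add_finrank_ker (ψ.restrictScalars k)
  have h2 : Module.finrank k (LinearMap.range (ψ.restrictScalars k)) = Module.finrank k (R ⧸ I) := by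
    rw [LinearMap.range_eq_top.2 (show Function.Surjective (ψ.restrictScalars k) from hsurj),
      finrank_top]
  have h3 : Module.finrank k (LinearMap.ker (ψ.restrictScalars k)) = Module.finrank k (R ⧸ J) := by
    have e1 : (R ⧸ J) ≃ₗ[R] LinearMap.range φ :=
      (Submodule.quotEquivOfEq _ _ hker.symm).trans φ.quotKerEquivRange
    have e2 : LinearMap.range φ ≃ₗ[R] LinearMap.ker ψ := LinearEquiv.ofEq _ _ hkerψ.symm
    exact ((e1.trans e2).restrictScalars k).finrank_eq.symm
  rw [h2, h3] at h1
  omega

end codim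

section small

variable {k : Type} [Field k] {W : WeierstrassCurve.Affine k}

theorem natDegree_norm_le (p q : k[X]) {m : ℕ} (hp : 2 * p.natDegree ≤ m + 1)
    (hq : q = 0 ∨ 2 * q.natDegree + 3 ≤ m + 1) :
    (Algebra.norm k[X] (p • (1 : W.CoordinateRing) + q • mk W X)).natDegree ≤ m + 1 := by
  rw [natDegree_le_iff_degree_le, degree_norm_smul_basis]
  refine max_le ?_ ?_
  · calc 2 • p.degree ≤ 2 • (p.natDegree : WithBot ℕ) := nsmul_le_nsmul_right degree_le_natDegree 2
      _ = ((2 * p.natDegree : ℕ) : WithBot ℕ) := by push_cast; rw [two_nsmul, two_mul]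
      _ ≤ _ := by exact_mod_cast hp
  · rcases hq with rfl | hq
    · rw [degree_zero, two_nsmul]
      simp
    · calc 2 • q.degree + 3 ≤ 2 • (q.natDegree : WithBot ℕ) + 3 := by
            gcongr
            exact degree_le_natDegree
        _ = ((2 * q.natDegree + 3 : ℕ) : WithBot ℕ) := by push_cast; rw [two_nsmul, two_mul]
        _ ≤ _ := by exact_mod_cast hq

/-- An ideal of codimension `m` contains a function with norm of degree at most `m + 1`. -/
theorem exists_small (I : Ideal W.CoordinateRing) [FiniteDimensional k (W.CoordinateRing ⧸ I)] :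
    ∃ a ∈ I, a ≠ 0 ∧ (Algebra.norm k[X] a).natDegree ≤
      Module.finrank k (W.CoordinateRing ⧸ I) + 1 := by
  set m := Module.finrank k (W.CoordinateRing ⧸ I) with hm
  set u := (m + 1) / 2 + 1 with hu
  set v := m / 2 with hv
  let Φ : (degreeLT k u × degreeLT k v) →ₗ[k] W.CoordinateRing :=
    { toFun := fun z => (z.1 : k[X]) • (1 : W.CoordinateRing) + (z.2 : k[X]) • mk W X
      map_add' := by
        intro x y
        simp only [Prod.fst_add, Prod.snd_add, Submodule.coe_add, add_smul]
        abel
      map_smul' := by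
        intro c x
        simp only [Prod.smul_fst, Prod.smul_snd, Submodule.coe_smul, smul_assoc, smul_add,
          RingHom.id_apply] }
  have hΦ : ∀ z, Φ z = (z.1 : k[X]) • (1 : W.CoordinateRing) + (z.2 : k[X]) • mk W X := fun z => rfl
  let π : W.CoordinateRing →ₗ[k] (W.CoordinateRing ⧸ I) := (Ideal.Quotient.mkₐ k I).toLinearMap
  have e1 : Module.finrank k (degreeLT k u) = u := by
    rw [(degreeLTEquiv k u).finrank_eq, Module.finrank_fin_fun]
  have e2 : Module.finrank k (degreeLT k v) = v := by
    rw [(degreeLTEquiv k v).finrank_eq, Module.finrank_fin_fun]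
  haveI f1 : FiniteDimensional k (degreeLT k u) := LinearEquiv.finiteDimensional
    (degreeLTEquiv k u).symm
  haveI f2 : FiniteDimensional k (degreeLT k v) := LinearEquiv.finiteDimensional
    (degreeLTEquiv k v).symm
  have hdim : Module.finrank k (W.CoordinateRing ⧸ I) <
      Module.finrank k (degreeLT k u × degreeLT k v) := by
    rw [Module.finrank_prod, e1, e2, ← hm]
    omega
  obtain ⟨z, hz, hz0⟩ := Submodule.exists_mem_ne_zero_of_ne_bot
    (LinearMap.ker_ne_bot_of_finrank_lt (f := π.comp Φ) hdim)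
  have hmem : Φ z ∈ I := by
    have h1 : π (Φ z) = 0 := hz
    exact Ideal.Quotient.eq_zero_iff_mem.1 h1
  refine ⟨Φ z, hmem, fun h0 => hz0 ?_, ?_⟩
  · obtain ⟨h1, h2⟩ := smul_basis_eq_zero ((hΦ z).symm.trans h0)
    exact Prod.ext (Subtype.ext h1) (Subtype.ext h2)
  · rw [hΦ]
    apply natDegree_norm_le
    · have h1 := z.1.2
      rw [mem_degreeLT] at h1
      by_cases h0 : (z.1 : k[X]) = 0
      · rw [h0, natDegree_zero]
        omega
      · have := (natDegree_lt_iff_degree_lt h0).2 h1
        omega
    · by_cases h0 : (z.2 : k[X]) = 0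
      · exact Or.inl h0
      · right
        have h1 := z.2.2
        rw [mem_degreeLT] at h1
        have := (natDegree_lt_iff_degree_lt h0).2 h1
        omega

end small

section surj

variable {k : Type} [Field k] {W : WeierstrassCurve.Affine k}

theorem finite_quot {I : Ideal W.CoordinateRing} (hI : I ≠ ⊥) :
    FiniteDimensional k (W.CoordinateRing ⧸ I) := by
  have e := I.quotientEquivDirectSum k (CoordinateRing.basis W) hI
  haveI : ∀ i, Module.Finite k (k[X] ⧸ Ideal.span {I.smithCoeffs (CoordinateRing.basis W) hI i}) :=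
    fun i => PowerBasis.finite (AdjoinRoot.powerBasis (I.smithCoeffs_ne_zero _ hI i))
  haveI : Module.Finite k (DirectSum (Fin 2) fun i =>
    k[X] ⧸ Ideal.span {I.smithCoeffs (CoordinateRing.basis W) hI i}) := inferInstance
  exact Module.Finite.equiv e.symm

/-- An ideal of codimension one is the ideal of a point. -/
theorem point_of_codim {J : Ideal W.CoordinateRing} [FiniteDimensional k (W.CoordinateRing ⧸ J)]
    (hJ : Module.finrank k (W.CoordinateRing ⧸ J) = 1) :
    ∃ x y : k, W.Equation x y ∧ J = XYIdeal W x (C y) := by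
  haveI : Nontrivial (W.CoordinateRing ⧸ J) := Module.nontrivial_of_finrank_pos (R := k) (by omega)
  have hb : Function.Bijective (algebraMap k (W.CoordinateRing ⧸ J)) := by
    refine ⟨(algebraMap k (W.CoordinateRing ⧸ J)).injective, fun z => ?_⟩
    obtain ⟨c, hc⟩ := (finrank_eq_one_iff_of_nonzero' (1 : W.CoordinateRing ⧸ J) one_ne_zero).1 hJ z
    exact ⟨c, by rw [Algebra.algebraMap_eq_smul_one, hc]⟩
  obtain ⟨x, hx⟩ := hb.2 (Ideal.Quotient.mk J (mk W (C X)))
  obtain ⟨y, hy⟩ := hb.2 (Ideal.Quotient.mk J (mk W X))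
  have hk : ∀ c : k, algebraMap k (W.CoordinateRing ⧸ J) c =
      Ideal.Quotient.mk J (mk W (C (C c))) := fun c => rfl
  have hxJ : XClass W x ∈ J := by
    rw [← Ideal.Quotient.eq_zero_iff_mem, XClass, C_sub, map_sub, map_sub, ← hx, hk, sub_self]
  have hyJ : YClass W (C y) ∈ J := by
    rw [← Ideal.Quotient.eq_zero_iff_mem, YClass, map_sub, map_sub, ← hy, hk, sub_self]
  have hle : XYIdeal W x (C y) ≤ J := by
    rw [XYIdeal, Ideal.span_le]
    rintro z hz
    rcases hz with rfl | hz
    · exact hxJ
    · rw [Set.mem_singleton_iff] at hz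
      rw [hz]
      exact hyJ
  have heq : W.Equation x y := by
    let ev : k[X][X] →+* k := (evalRingHom x).comp (evalRingHom (C y))
    -- modulo `J` every polynomial is its value
    have hev : ∀ P : k[X][X], Ideal.Quotient.mk J (mk W P) =
        algebraMap k (W.CoordinateRing ⧸ J) (ev P) := by
      have key : ((Ideal.Quotient.mk J).comp (mk W) : k[X][X] →+* _) =
          (algebraMap k (W.CoordinateRing ⧸ J)).comp ev := by
        apply Polynomial.ringHom_ext'
        · apply Polynomial.ringHom_ext
          · intro c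
            show Ideal.Quotient.mk J (mk W (C (C c))) = algebraMap k _ (ev (C (C c)))
            rw [← hk]
            congr 1
            show c = eval x (eval (C y) (C (C c)))
            rw [eval_C, eval_C]
          · show Ideal.Quotient.mk J (mk W (C X)) = algebraMap k _ (ev (C X))
            rw [← hx]
            congr 1
            show x = eval x (eval (C y) (C X))
            rw [eval_C, eval_X]
        · show Ideal.Quotient.mk J (mk W X) = algebraMap k _ (ev X)
          rw [← hy]
          congr 1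
          show y = eval x (eval (C y) X)
          rw [eval_X, eval_C]
      intro P
      exact congrArg (fun h : k[X][X] →+* (W.CoordinateRing ⧸ J) => h P) key
    have h1 := hev W.polynomial
    rw [AdjoinRoot.mk_self, map_zero] at h1
    have h2 : ev W.polynomial = 0 := hb.1 (by rw [← h1, map_zero])
    exact h2
  refine ⟨x, y, heq, ?_⟩
  have hmax : (XYIdeal W x (C y)).IsMaximal := by
    have e := quotientXYIdealEquiv (W' := W) (x := x) (y := C y) (by exact heq)
    exact Ideal.Quotient.maximal_of_isField _ (e.toMulEquiv.isField (Field.toIsField k))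
  refine (hmax.eq_of_le ?_ hle).symm
  rw [Ne, ← Ideal.Quotient.subsingleton_iff]
  exact not_subsingleton _

/-- The class group of the coordinate ring is the group of points. -/
theorem toClass_surj [IsDedekindDomain W.CoordinateRing]
    (hns0 : ∀ x y : k, W.Equation x y → W.Nonsingular x y) :
    Function.Surjective (Point.toClass (W := W)) := by
  suffices hs : ∀ c : ClassGroup W.CoordinateRing, ∃ P : W.Point,
      Point.toClass P = Additive.ofMul c from fun c0 => hs c0.toMul
  intro c
  obtain ⟨I, hI⟩ := ClassGroup.mk0_surjective c⁻¹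
  have hI0 : (I : Ideal W.CoordinateRing) ≠ ⊥ := nonZeroDivisors.coe_ne_zero I
  haveI := finite_quot hI0
  obtain ⟨a, haI, ha0, hdeg⟩ := exists_small (I : Ideal W.CoordinateRing)
  obtain ⟨J, hJ⟩ := Ideal.dvd_iff_le.2 ((Ideal.span_singleton_le_iff_mem _).2 haI)
  have hsp : Ideal.span {a} ≠ (⊥ : Ideal W.CoordinateRing) :=
    fun h0 => ha0 (Ideal.span_singleton_eq_bot.1 h0)
  haveI := finite_quot hsp
  have h1 := codim_mul (k := k) ha0 hJ.symm
  rw [finrank_quotient_span_eq_natDegree_norm (CoordinateRing.basis W) ha0] at h1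
  have hJ1 : Module.finrank k (W.CoordinateRing ⧸ J) ≤ 1 := by omega
  have hJ0 : J ≠ ⊥ := by
    rintro rfl
    rw [Ideal.mul_bot] at hJ
    exact hsp hJ
  haveI := finite_quot hJ0
  have hJm : J ∈ (Ideal W.CoordinateRing)⁰ := mem_nonZeroDivisors_of_ne_zero hJ0
  have hcJ : c = ClassGroup.mk0 ⟨J, hJm⟩ := by
    have h2 : ClassGroup.mk0 I * ClassGroup.mk0 ⟨J, hJm⟩ = 1 := by
      rw [← map_mul]
      refine (ClassGroup.mk0_eq_one_iff _).2 ?_
      show ((I : Ideal W.CoordinateRing) * J).IsPrincipal
      rw [← hJ]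
      exact ⟨⟨a, rfl⟩⟩
    rw [hI] at h2
    exact (inv_mul_eq_one.1 h2)
  rcases Nat.lt_or_ge (Module.finrank k (W.CoordinateRing ⧸ J)) 1 with h | h
  · -- the unit ideal
    have h3 : Subsingleton (W.CoordinateRing ⧸ J) :=
      Module.finrank_zero_iff.1 (by omega : Module.finrank k (W.CoordinateRing ⧸ J) = 0)
    have h4 : J = ⊤ := Ideal.Quotient.subsingleton_iff.1 h3
    refine ⟨0, ?_⟩
    rw [map_zero, hcJ]
    subst h4
    symm
    show Additive.ofMul (ClassGroup.mk0 ⟨⊤, hJm⟩) = Additive.ofMul 1
    congr 1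
    exact (ClassGroup.mk0_eq_one_iff _).2 ⟨⟨1, by simp⟩⟩
  · obtain ⟨x, y, heq, hJe⟩ := point_of_codim (W := W) (J := J) (by omega)
    have hns : W.Nonsingular x y := hns0 x y heq
    refine ⟨Point.some _ _ hns, ?_⟩
    rw [Point.toClass_some, hcJ, ← ClassGroup.mk_mk0 W.FunctionField]
    have h5 : XYIdeal' hns = FractionalIdeal.mk0 W.FunctionField ⟨J, hJm⟩ := by
      apply Units.ext
      rw [XYIdeal'_eq, FractionalIdeal.coe_mk0, ← hJe]
    rw [h5]
    rfl

/-- The functions on an elliptic curve without points of order `p`. -/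
theorem class_ell {p : ℕ} [IsDedekindDomain W.CoordinateRing]
    (hns0 : ∀ x y : k, W.Equation x y → W.Nonsingular x y)
    (h : ∀ P : W.Point, p • P = 0 → P = 0) (c : ClassGroup W.CoordinateRing) (hc : c ^ p = 1) :
    c = 1 := by
  obtain ⟨P, hP⟩ := toClass_surj (W := W) hns0 (Additive.ofMul c)
  have h1 : Point.toClass (p • P) = 0 := by
    rw [map_nsmul, hP, ← ofMul_pow, hc]
    rfl
  have h2 : p • P = 0 := Point.toClass_injective (by rw [h1, map_zero])
  have h3 := h P h2
  rw [h3, map_zero] at hP
  exact (Additive.ofMul.injective hP).symm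

end surj

end Pool.Agent.X261.BC
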