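import Pool.Agent.X261.BC.Pre
import Pool.Agent.Y494.FT.Kum

/-!
The curves `t ^ r = g(x)`, and elliptic curves.
-/

set_option autoImplicit false
set_option linter.all false

open Polynomial IsDedekindDomain WithZero
open scoped nonZeroDivisors Classical

namespace Pool.Agent.X261.BC

open Pool.Agent.Y160.FT (Pres)
open Pool.Agent.Y160.SE (SmoothC)
open Pool.Agent.Y160.T7
open Pool.Agent.Y228.FT
open Pool.Agent.X261.TS (dtt coeff_dtt)

section sup

variable {k : Type} [Field k]

/-- `g(x) - t ^ r` -/
noncomputable def sup (g : k[X]) (r : ℕ) : k[X][X] := g.map C - C (X ^ r)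

theorem swap_sup (g : k[X]) (r : ℕ) : Bivariate.swap (X ^ r - C g : k[X][X]) = C (C (-1)) * sup g r := by
  unfold sup
  have h1 : Bivariate.swap (C g : k[X][X]) = g.map C := Bivariate.swap_C g
  have h2 : Bivariate.swap (X : k[X][X]) = C X := Bivariate.swap_Y
  rw [map_sub, map_pow, h1, h2, C_neg, C_neg, C_1, C_1, C_pow]
  ring

theorem sup_eq (g : k[X]) (r : ℕ) : sup g r =
    C (C (-1)) * Bivariate.swap (X ^ r - C g : k[X][X]) := by
  rw [swap_sup, ← mul_assoc, ← C_mul, ← C_mul, neg_mul_neg, one_mul, C_1, C_1, one_mul]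

theorem irr_pow {g : k[X]} (hg : Squarefree g) (hd : 0 < g.natDegree) {r : ℕ} (hr : 1 < r) :
    Irreducible (X ^ r - C g : k[X][X]) := by
  obtain ⟨v, hv⟩ := exists_val hg hd
  have h1 : IsDomain (AdjoinRoot (X ^ r - C g : k[X][X])) := Pool.Agent.Y494.FT.isDom hr v hv
  have hm : (X ^ r - C g : k[X][X]).Monic := monic_X_pow_sub_C g (by omega)
  have h2 := (Ideal.Quotient.isDomain_iff_prime _).1 h1
  exact ((Ideal.span_singleton_prime hm.ne_zero).1 h2).irreducible

theorem irr_sup {g : k[X]} (hg : Squarefree g) (hd : 0 < g.natDegree) {r : ℕ} (hr : 1 < r) :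
    Irreducible (sup g r) := by
  have h1 := irr_pow hg hd hr
  have h2 : Irreducible (Bivariate.swap (X ^ r - C g : k[X][X])) :=
    (MulEquiv.irreducible_iff (Bivariate.swap (R := k)).toMulEquiv).2 h1
  rw [swap_sup] at h2
  exact (irreducible_isUnit_mul (isUnit_C.2 (isUnit_C.2
    (IsUnit.mk0 _ (neg_ne_zero.2 one_ne_zero))))).1 h2

theorem monic_sup {g : k[X]} (hg : g.Monic) (hd : 0 < g.natDegree) (r : ℕ) : (sup g r).Monic := by
  have h1 : (g.map C : k[X][X]).Monic := hg.map _
  apply h1.sub_of_left
  rw [degree_map_eq_of_injective C_injective]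
  exact lt_of_le_of_lt degree_C_le (natDegree_pos_iff_degree_pos.1 hd)

theorem natDegree_sup (g : k[X]) (r : ℕ) : (sup g r).natDegree = g.natDegree := by
  unfold sup
  rw [natDegree_sub_C, natDegree_map_eq_of_injective C_injective]

theorem derivative_sup (g : k[X]) (r : ℕ) : derivative (sup g r) = (derivative g).map C := by
  unfold sup
  rw [derivative_sub, derivative_C, sub_zero, derivative_map]

theorem dtt_sup (g : k[X]) (r : ℕ) : dtt (sup g r) = -C (derivative (X ^ r : k[X])) := by
  ext1 n
  rw [coeff_dtt]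
  unfold sup
  rw [coeff_sub, coeff_map, derivative_sub, derivative_C, zero_sub, coeff_neg, coeff_C, coeff_C]
  by_cases h : n = 0
  · rw [if_pos h, if_pos h]
  · rw [if_neg h, if_neg h, derivative_zero]

theorem smooth_sup {g : k[X]} (hg : g.Separable) {r : ℕ} (hr : (r : k) ≠ 0) :
    SmoothC (sup g r) := by
  show Ideal.span {sup g r, derivative (sup g r), dtt (sup g r)} = ⊤
  rw [Ideal.eq_top_iff_one, derivative_sup, dtt_sup]
  set I := Ideal.span {sup g r, (derivative g).map C, -C (derivative (X ^ r : k[X]))} with hI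
  have m1 : sup g r ∈ I := Ideal.subset_span (by simp)
  have m2 : (derivative g).map C ∈ I := Ideal.subset_span (by simp)
  have m3 : -C (derivative (X ^ r : k[X])) ∈ I := Ideal.subset_span (by simp)
  have hr0 : r ≠ 0 := by
    rintro rfl
    exact hr (by simp)
  have e3 : (C (X ^ r) : k[X][X]) = -C (derivative (X ^ r : k[X])) * (-C (C (r : k)⁻¹ * X)) := by
    have e0 : ∀ A B : k[X][X], -A * -B = A * B := fun A B => by ring
    rw [e0, ← C_mul]
    congr 1
    rw [derivative_X_pow]
    have : (C (r : k) : k[X]) * X ^ (r - 1) * (C (r : k)⁻¹ * X) =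
        C ((r : k) * (r : k)⁻¹) * (X ^ (r - 1) * X) := by
      rw [C_mul]
      ring
    rw [this, mul_inv_cancel₀ hr, C_1, one_mul, ← pow_succ]
    congr 1
    omega
  have m4 : (C (X ^ r) : k[X][X]) ∈ I := by
    rw [e3]
    exact Ideal.mul_mem_right _ _ m3
  have m5 : (g.map C : k[X][X]) ∈ I := by
    have : (g.map C : k[X][X]) = sup g r + C (X ^ r) := by
      unfold sup
      ring
    rw [this]
    exact add_mem m1 m4
  obtain ⟨u, w, huw⟩ := hg
  have h1 := congrArg (fun P => P.map (C : k →+* k[X])) huw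
  simp only [Polynomial.map_add, Polynomial.map_mul, Polynomial.map_one] at h1
  rw [← h1]
  exact add_mem (Ideal.mul_mem_left _ _ m5) (Ideal.mul_mem_left _ _ m2)

theorem map_sup {k' : Type} [Field k'] (φ : k →+* k') (g : k[X]) (r : ℕ) :
    (sup g r).map (mapRingHom φ) = sup (g.map φ) r := by
  unfold sup
  rw [Polynomial.map_sub, map_C, Polynomial.map_map, Polynomial.map_map]
  congr 1
  · congr 1
    ext1 c
    show mapRingHom φ (C c) = C (φ c)
    rw [coe_mapRingHom, map_C]
  · rw [coe_mapRingHom, Polynomial.map_pow, map_X]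

theorem irr_closure {g : k[X]} (hg : g.Separable) (hd : 0 < g.natDegree) {r : ℕ} (hr : 1 < r)
    (k' : Type) [Field k'] [Algebra k k'] :
    Irreducible ((sup g r).map (mapRingHom (algebraMap k k'))) := by
  rw [map_sup]
  exact irr_sup (hg.map).squarefree (by rwa [natDegree_map]) hr

end sup

section ell

variable {k : Type} [Field k] {a b c : k}

/-- `x ^ 3 + a x ^ 2 + b x + c` -/
noncomputable def cub (a b c : k) : k[X] := X ^ 3 + C a * X ^ 2 + C b * X + C c

theorem cub_eq (a b c : k) : cub a b c = Cubic.toPoly ⟨1, a, b, c⟩ := by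
  unfold cub Cubic.toPoly
  rw [C_1, one_mul]

theorem cub_monic (a b c : k) : (cub a b c).Monic := by
  rw [cub_eq]
  exact Cubic.monic_of_a_eq_one rfl

theorem cub_deg (a b c : k) : (cub a b c).natDegree = 3 := by
  rw [cub_eq]
  exact Cubic.natDegree_of_a_ne_zero one_ne_zero

/-- the Weierstrass curve -/
def wei (a b c : k) : WeierstrassCurve.Affine k := ⟨0, a, 0, b, c⟩

theorem poly_wei (a b c : k) : (wei a b c).polynomial = X ^ 2 - C (cub a b c) := by
  unfold WeierstrassCurve.Affine.polynomial wei cub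
  simp

theorem ded_wei (h2 : (2 : k) ≠ 0) (hs : (cub a b c).Separable) :
    IsDedekindDomain (wei a b c).CoordinateRing := by
  show IsDedekindDomain (AdjoinRoot (wei a b c).polynomial)
  rw [poly_wei]
  have hζ : IsPrimitiveRoot (-1 : k) 2 := by
    refine IsPrimitiveRoot.mk_of_lt _ two_pos (by norm_num) fun l hl1 hl2 => ?_
    have : l = 1 := by omega
    subst this
    rw [pow_one]
    intro h
    apply h2
    have : (1 : k) + 1 = 0 := by
      nth_rewrite 1 [← h]
      ring
    rw [← this]
    norm_num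
  have hd : 0 < (cub a b c).natDegree := by rw [cub_deg]; norm_num
  exact Pool.Agent.Y494.FT.kDed one_lt_two hζ (val_sqf hs.squarefree)
    (exists_val hs.squarefree hd)

theorem pres_wei (a b c : k) : Pres (AdjoinRoot.root (wei a b c).polynomial)
    (AdjoinRoot.of (wei a b c).polynomial X) (sup (cub a b c) 2) := by
  have h1 := pres_swap' (pres_adjoin (wei a b c).polynomial)
  have h2 := pres_unit h1 (c := (-1 : k)) (neg_ne_zero.2 one_ne_zero)
  have e : C (C (-1)) * Bivariate.swap (wei a b c).polynomial = sup (cub a b c) 2 := by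
    rw [poly_wei, ← sup_eq]
  rwa [e] at h2

theorem nonsing_wei (h2 : (2 : k) ≠ 0) (hs : (cub a b c).Separable) {x y : k}
    (h : (wei a b c).Equation x y) : (wei a b c).Nonsingular x y := by
  rw [WeierstrassCurve.Affine.nonsingular_iff']
  refine ⟨h, ?_⟩
  by_contra hcon
  push Not at hcon
  rw [WeierstrassCurve.Affine.equation_iff'] at h
  obtain ⟨h3, h4⟩ := hcon
  simp only [wei] at h h3 h4
  have hy : y = 0 := by
    have : 2 * y = 0 := by linear_combination h4
    exact (mul_eq_zero.1 this).resolve_left h2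
  subst hy
  obtain ⟨u, w, huw⟩ := hs
  have h5 := congrArg (eval x) huw
  have e1 : eval x (cub a b c) = 0 := by
    unfold cub
    simp only [eval_add, eval_mul, eval_pow, eval_X, eval_C]
    linear_combination -h
  have e2 : eval x (derivative (cub a b c)) = 0 := by
    unfold cub
    simp only [derivative_add, derivative_mul, derivative_X_pow, derivative_C, derivative_X,
      eval_add, eval_mul, eval_pow, eval_X, eval_C, zero_mul, zero_add, mul_one, add_zero]
    simp
    linear_combination -h3
  rw [eval_add, eval_mul, eval_mul, e1, e2, mul_zero, mul_zero, add_zero, eval_one] at h5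
  exact zero_ne_one h5

end ell

end Pool.Agent.X261.BC
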