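import Pool.Agent.X261.BC.Fam

/-!
The general theorem.
-/

set_option autoImplicit false
set_option linter.all false

open Polynomial IsDedekindDomain WithZero
open scoped nonZeroDivisors Classical

namespace Pool.Agent.X261.BC

open Pool.Agent.TH115.GD (IsTower)
open Pool.Agent.Y160
open Pool.Agent.Y160.FT (Pres)
open Pool.Agent.Y160.SE (SmoothC)
open Pool.Agent.Y160.SL (Concl)
open Pool.Agent.Y160.T7
open Pool.Agent.X261.TS (prime_of_pres conclS)
open Pool.Agent.X261.RO (conclP prime_A A_dvd_P prime_B not_dvd fac_mod)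

section main

variable {k k' K F : Type} [Field k] [Field k'] [Algebra k k'] [Field K] [Algebra k[X] K]
  [Field F] [Algebra k'[X] F] [IsFractionRing k'[X] F] [Algebra K F] [IsFractionRing k[X] K]

theorem irrF' (hT : IsTower k k' K F) {f : k[X][X]} (hmon : f.Monic)
    (h : Irreducible (f.map (mapRingHom (algebraMap k k')))) :
    Irreducible ((f.map (algebraMap k[X] K)).map (algebraMap K F)) := by
  have e : (f.map (algebraMap k[X] K)).map (algebraMap K F) =
      (f.map (mapRingHom (algebraMap k k'))).map (algebraMap k'[X] F) := by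
    rw [Polynomial.map_map, Polynomial.map_map]
    congr 1
    apply RingHom.ext
    intro y
    exact hT.map y
  rw [e]
  exact ((hmon.map _).irreducible_iff_irreducible_map_fraction_map).1 h

theorem sepK (hT : IsTower k k' K F) {f : k[X][X]} (hmon : f.Monic)
    (h : Irreducible (f.map (mapRingHom (algebraMap k k')))) (hd : derivative f ≠ 0) :
    (f.map (algebraMap k[X] K)).Separable := by
  have h1 : Irreducible (f.map (algebraMap k[X] K)) :=
    Polynomial.Monic.irreducible_of_irreducible_map (algebraMap K F) _ (hmon.map _)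
      (irrF' hT hmon h)
  rw [separable_iff_derivative_ne_zero h1, derivative_map]
  rwa [Polynomial.map_ne_zero_iff (IsFractionRing.injective k[X] K)]

/-- The twists by products of inert primes. -/
theorem mainI (hT : IsTower k k' K F) {p s : ℕ} (hp : p.Prime) {ζ : k}
    (hζ : IsPrimitiveRoot ζ (p ^ (s + 1))) {f : k[X][X]} (hmon : f.Monic)
    (hcop : p.Coprime f.natDegree) (h : Irreducible (f.map (mapRingHom (algebraMap k k'))))
    (hd : derivative f ≠ 0) (hsm : SmoothC f)
    (hR : ∃ _ : IsDedekindDomain (AdjoinRoot f), PropT p k (AdjoinRoot f)) {D : k[X]} (hD : D ≠ 0)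
    (hin : ∀ P : k[X], Irreducible P → P ∣ D → Irreducible (f.map (AdjoinRoot.mk P))) :
    Concl p (p ^ (s + 1)) 0 k k' F ((f.scaleRoots D).map (algebraMap k[X] K)) := by
  have hn : 0 < f.natDegree := by
    rcases Nat.eq_zero_or_pos f.natDegree with h0 | h0
    · rw [h0, Nat.coprime_zero_right] at hcop
      exact absurd hcop hp.one_lt.ne'
    · exact h0
  refine conclS hT hp rfl hζ hmon hcop hD ?_ (sepK hT hmon h hd) hsm (irrF' hT hmon h)
  obtain ⟨i2, hR⟩ := hR
  exact ⟨AdjoinRoot f, inferInstance, i2, inferInstance, _, _, pres_adjoin f, hR,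
    fun P hP hPD => prime_of_pres (pres_adjoin f) hn hP (hin P hP hPD)⟩

/-- The twists by mixed primes. -/
theorem mainM (hT : IsTower k k' K F) {p s : ℕ} (hp : p.Prime) {ζ : k}
    (hζ : IsPrimitiveRoot ζ (p ^ (s + 1))) {f : k[X][X]} (hmon : f.Monic)
    (hcop : p.Coprime f.natDegree) (h : Irreducible (f.map (mapRingHom (algebraMap k k'))))
    (hd : derivative f ≠ 0) (hsm : SmoothC f)
    (hR : ∃ _ : IsDedekindDomain (AdjoinRoot f), PropT p k (AdjoinRoot f)) (hn : 2 < f.natDegree)
    {c : k[X]} (hPi : Irreducible (f.eval c))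
    (hcof : Irreducible ((f.map (AdjoinRoot.mk (f.eval c))) /ₘ
      (X - C (AdjoinRoot.mk (f.eval c) c)))) {j : ℕ} (hj : p ^ (s + 1) ∣ f.natDegree * j + 1) :
    Concl p (p ^ (s + 1)) 1 k k' F ((f.scaleRoots (f.eval c ^ j)).map (algebraMap k[X] K)) := by
  refine conclP hT hp rfl hζ hmon hcop (by omega) hPi hj ?_ (sepK hT hmon h hd) hsm
    (irrF' hT hmon h)
  obtain ⟨i2, hR⟩ := hR
  have hp := pres_adjoin f
  have hA := prime_A hp hmon (by omega) hPi
  have hinj : aeval (AdjoinRoot.of f X) (f.eval c) ≠ 0 := by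
    intro h0
    have h1 : f ∣ C (f.eval c) := (hp.ker _).1 (by
      rw [eval₂_C]
      exact h0)
    have h3 := natDegree_le_of_dvd h1 (C_ne_zero.2 hPi.ne_zero)
    rw [natDegree_C] at h3
    omega
  obtain ⟨B, hB⟩ := A_dvd_P (c := c) hp
  exact ⟨AdjoinRoot f, inferInstance, i2, inferInstance, _, _, hp, hR, B,
    prime_B hp hPi (fac_mod f c) hcof hA.ne_zero hinj hB,
    not_dvd hp hmon hn hPi (fac_mod f c) hA.ne_zero hB, hB⟩

end main

section ell

variable {k : Type} [Field k] {a b c : k}

/-- The elliptic curves. -/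
theorem ell_ring {p : ℕ} (h2 : (2 : k) ≠ 0) (hs : (cub a b c).Separable) (hp : 0 < p)
    (h : ∀ P : (wei a b c).Point, p • P = 0 → P = 0) :
    IsDedekindDomain (AdjoinRoot (sup (cub a b c) 2)) ∧
    (∀ I : Ideal (AdjoinRoot (sup (cub a b c) 2)), (I ^ p).IsPrincipal → I.IsPrincipal) ∧
    ∀ u : (AdjoinRoot (sup (cub a b c) 2))ˣ, ∃ d : k,
      (u : AdjoinRoot (sup (cub a b c) 2)) = algebraMap k _ d := by
  haveI := ded_wei (a := a) (b := b) (c := c) h2 hs
  obtain ⟨e, he⟩ := exists_equiv (pres_wei a b c)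
  refine ⟨dedekind_equiv e, principal_equiv e (ideal_of_class hp
    (class_ell (fun x y => nonsing_wei h2 hs) h)), fun u => ?_⟩
  obtain ⟨d, hd⟩ := unit_const (W := wei a b c) (Units.mapEquiv e.symm.toMulEquiv u)
  refine ⟨d, ?_⟩
  have h1 : e.symm (u : AdjoinRoot (sup (cub a b c) 2)) =
      algebraMap k (wei a b c).CoordinateRing d := hd
  rw [← he, ← h1, RingEquiv.apply_symm_apply]

end ell

end Pool.Agent.X261.BC
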