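import Pool.Agent.X261.BC.Ell

/-!
Presentations, and the coordinate rings of elliptic curves.
-/

set_option autoImplicit false
set_option linter.all false

open Polynomial IsDedekindDomain WithZero
open scoped nonZeroDivisors Classical

namespace Pool.Agent.X261.BC

open Pool.Agent.Y160.FT (Pres)
open Pool.Agent.Y160.T7
open Pool.Agent.Y228.FT

section pres

variable {k : Type} [Field k]

/-- The presentation of `k[t, x] / (f)`. -/
theorem pres_adjoin (f : k[X][X]) :
    Pres (AdjoinRoot.of f X) (AdjoinRoot.root f) f := by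
  have key : ∀ P : k[X][X], eval₂ ((aeval (AdjoinRoot.of f X) : k[X] →ₐ[k] AdjoinRoot f) :
      k[X] →+* AdjoinRoot f) (AdjoinRoot.root f) P = AdjoinRoot.mk f P := by
    have h1 : ((aeval (AdjoinRoot.of f X) : k[X] →ₐ[k] AdjoinRoot f) :
        k[X] →+* AdjoinRoot f) = AdjoinRoot.of f := by
      apply Polynomial.ringHom_ext
      · intro a
        show aeval (AdjoinRoot.of f X) (C a) = _
        rw [aeval_C]
        rfl
      · show aeval (AdjoinRoot.of f X) X = _
        rw [aeval_X]
    intro P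
    rw [h1]
    exact AdjoinRoot.aeval_eq P
  constructor
  · intro z
    obtain ⟨P, rfl⟩ := AdjoinRoot.mk_surjective z
    exact ⟨P, key P⟩
  · intro P
    rw [key]
    exact AdjoinRoot.mk_eq_zero

variable {R : Type} [CommRing R] [Algebra k R] {t x : R} {f : k[X][X]}

/-- The ring is determined by the presentation. -/
theorem exists_equiv (h : Pres t x f) : ∃ e : R ≃+* AdjoinRoot f,
    ∀ c : k, e (algebraMap k R c) = algebraMap k (AdjoinRoot f) c := by
  let φ : AdjoinRoot f →+* R := AdjoinRoot.lift ((aeval t : k[X] →ₐ[k] R) : k[X] →+* R) x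
    ((h.ker f).2 dvd_rfl)
  have hφ : ∀ P : k[X][X], φ (AdjoinRoot.mk f P) =
      eval₂ ((aeval t : k[X] →ₐ[k] R) : k[X] →+* R) x P := fun P => AdjoinRoot.lift_mk _ P
  have hb : Function.Bijective φ := by
    constructor
    · rw [injective_iff_map_eq_zero]
      intro z hz
      obtain ⟨P, rfl⟩ := AdjoinRoot.mk_surjective z
      rw [hφ, h.ker] at hz
      exact AdjoinRoot.mk_eq_zero.2 hz
    · intro z
      obtain ⟨P, rfl⟩ := h.surj z
      exact ⟨AdjoinRoot.mk f P, hφ P⟩
  refine ⟨(RingEquiv.ofBijective φ hb).symm, fun c => ?_⟩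
  rw [RingEquiv.symm_apply_eq]
  show _ = φ (AdjoinRoot.mk f (C (C c)))
  rw [hφ, eval₂_C]
  show _ = aeval t (C c)
  rw [aeval_C]

end pres

section transport

variable {A B : Type} [CommRing A] [CommRing B]

theorem dedekind_equiv (e : A ≃+* B) [IsDedekindDomain A] : IsDedekindDomain B := by
  haveI : IsDomain B := e.symm.toMulEquiv.isDomain A
  letI : Algebra A B := e.toRingHom.toAlgebra
  have h1 : IsLocalization (⊥ : Submonoid A) B := by
    have h2 : IsLocalization (⊥ : Submonoid A) A :=
      IsLocalization.self (fun x hx => by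
        rw [Submonoid.mem_bot.1 hx]
        exact isUnit_one)
    exact IsLocalization.isLocalization_of_algEquiv (⊥ : Submonoid A)
      (AlgEquiv.ofRingEquiv (f := e) (fun r => rfl))
  exact IsLocalization.isDedekindDomain A (M := ⊥) (bot_le) B

theorem principal_equiv (e : A ≃+* B) {p : ℕ}
    (h : ∀ I : Ideal A, (I ^ p).IsPrincipal → I.IsPrincipal) (I : Ideal B)
    (hI : (I ^ p).IsPrincipal) : I.IsPrincipal := by
  obtain ⟨⟨b, hb⟩⟩ := hI
  have e1 : (I.map (e.symm : B →+* A)) ^ p = Ideal.span {e.symm b} := by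
    rw [← Ideal.map_pow, hb, Ideal.submodule_span_eq, Ideal.map_span, Set.image_singleton]
    rfl
  obtain ⟨⟨a, ha⟩⟩ := h (I.map (e.symm : B →+* A)) ⟨⟨_, e1⟩⟩
  refine ⟨⟨e a, ?_⟩⟩
  have e2 : (I.map (e.symm : B →+* A)).map (e : A →+* B) = I := by
    rw [Ideal.map_map]
    have : (e : A →+* B).comp (e.symm : B →+* A) = RingHom.id B := by
      ext z
      simp
    rw [this, Ideal.map_id]
  rw [← e2, ha, Ideal.submodule_span_eq, Ideal.map_span, Set.image_singleton]
  rfl

end transport

section cls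

variable {k R : Type} [Field k] [CommRing R] [IsDedekindDomain R] [Algebra k R]

theorem class_of_ideal {p : ℕ} (h : ∀ I : Ideal R, (I ^ p).IsPrincipal → I.IsPrincipal)
    (c : ClassGroup R) (hc : c ^ p = 1) : c = 1 := by
  obtain ⟨⟨I, hI⟩, rfl⟩ := ClassGroup.mk0_surjective c
  rw [← map_pow] at hc
  exact (ClassGroup.mk0_eq_one_iff hI).2 (h I ((ClassGroup.mk0_eq_one_iff (pow_mem hI p)).1 hc))

theorem ideal_of_class {p : ℕ} (hp : 0 < p) (h : ∀ c : ClassGroup R, c ^ p = 1 → c = 1)
    (I : Ideal R) (hI : (I ^ p).IsPrincipal) : I.IsPrincipal := by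
  by_cases h0 : I = 0
  · subst h0
    exact ⟨⟨0, by simp⟩⟩
  · have hI0 : I ∈ (Ideal R)⁰ := mem_nonZeroDivisors_of_ne_zero h0
    refine (ClassGroup.mk0_eq_one_iff hI0).1 (h _ ?_)
    rw [← map_pow]
    exact (ClassGroup.mk0_eq_one_iff (pow_mem hI0 p)).2 hI

end cls

section sqf

variable {k : Type} [Field k]

theorem val_sqf {g : k[X]} (hg : Squarefree g) (v : HeightOneSpectrum k[X]) :
    v.intValuation g = 1 ∨ v.intValuation g = exp (-1 : ℤ) := by
  by_cases h : v.intValuation g = 1
  · exact Or.inl h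
  · right
    have hgv : g ∈ v.asIdeal := by
      rw [← HeightOneSpectrum.intValuation_lt_one_iff_mem]
      exact lt_of_le_of_ne (v.intValuation_le_one g) h
    set P := Submodule.IsPrincipal.generator v.asIdeal with hP
    have hPp : Prime P := Submodule.IsPrincipal.prime_generator_of_isPrime v.asIdeal v.ne_bot
    have hPv : P ∈ v.asIdeal := Submodule.IsPrincipal.generator_mem v.asIdeal
    obtain ⟨r, hr⟩ := (Submodule.IsPrincipal.mem_iff_generator_dvd v.asIdeal).1 hgv
    have h1 : v.intValuation P ≠ 1 := ((v.intValuation_lt_one_iff_mem _).2 hPv).ne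
    rw [eq_vpr hPp v h1, hr, map_mul]
    have h2 : (vpr hPp).intValuation r = 1 := by
      rw [vpr_eq_one]
      rintro ⟨r', hr'⟩
      apply hPp.not_unit
      exact hg P ⟨r', by rw [hr, hr', mul_assoc]⟩
    rw [← hP, vpr_self, h2, mul_one]

theorem exists_val {g : k[X]} (hg : Squarefree g) (hd : 0 < g.natDegree) :
    ∃ v : HeightOneSpectrum k[X], v.intValuation g = exp (-1 : ℤ) := by
  obtain ⟨P, hP, hPg⟩ := exists_irreducible_of_natDegree_ne_zero (f := g) (by omega)
  refine ⟨vpr hP.prime, (val_sqf hg _).resolve_left ?_⟩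
  rw [vpr_eq_one]
  exact fun h => h hPg

end sqf

end Pool.Agent.X261.BC
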